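import Pool.Agent.Y382.MX.Primes
import Pool.Agent.Y401.MX.Nred
import Pool.Agent.Y465.MX.FIN
import Pool.Agent.Y921.MX.LNC
import Pool.Agent.Y974.MX.NIL

/-!
# Mixed identities of finite groups: which sets of primes force a finite basis

Full answer to Q1 (there is a finite group whose mixed identities have no finite basis), in a
stronger form. Let `π` be a set of primes. The mixed identities of all finite groups whose order
has all its prime divisors in `π` are finitely based if and only if `π` has at most one element.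
For any two primes `ℓ ≠ p` there is a finite group `Γ` whose order has no other prime divisors,
such that for every group `A` the mixed identities of `A × Γ` have no finite basis, and not even a
basis in boundedly many variables; the same holds if only some elements of `A × Γ` are named by
constants, as long as those of `1 × Γ` are. So every finite group is a direct factor of a finite
group whose mixed identities are not finitely based.

The group `Γ` consists of the pairs of elements with the same component in `ℤ/ℓ` of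
`(𝔽_ℓ ^ F × 𝔽_ℓ ^ F × 𝔽_ℓ) : (F : ℤ/ℓ)`, modulo the diagonal centre; here `F` is a finite field of
characteristic `p` and `ℤ/ℓ` acts on `F` by the multiplication with roots of unity.
-/

set_option autoImplicit false

namespace Pool.Agent.Results.MP_fd3e90_al.PrimeSets

open Pool.Agent.Helper60.Mixed Pool.Agent.Y382.MX

theorem result :
    -- (1) full answer to the question
    (∃ (G : Type) (_ : Group G), Finite G ∧ ¬ MixedFinitelyBased G) ∧
    -- (2) the sets of primes
    (∀ π : Set ℕ,
      (∀ (G : Type) [Group G] [Finite G], (∀ r : ℕ, r.Prime → r ∣ Nat.card G → r ∈ π) →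
        MixedFinitelyBased G) ↔ ∀ r ∈ π, ∀ s ∈ π, r.Prime → s.Prime → r = s) ∧
    -- (3) finite nilpotent groups
    (∀ (G : Type) [Group G] [Finite G], Group.IsNilpotent G → MixedFinitelyBased G) ∧
    -- (4) two primes, arbitrary direct factors, constants and bounded numbers of variables
    (∀ ℓ p : ℕ, ℓ.Prime → p.Prime → ℓ ≠ p → ∃ (Γ : Type) (_ : Group Γ), Finite Γ ∧
      (∀ r : ℕ, r.Prime → r ∣ Nat.card Γ → r = ℓ ∨ r = p) ∧
      ∀ (A : Type) [Group A], ¬ MixedFinitelyBased (A × Γ) ∧
        ∀ (C : Type) (k : C → A × Γ), (∀ γ : Γ, ∃ c, k c = (1, γ)) →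
          ∀ n : ℕ, ∃ e : MTerm C × MTerm C, Holds (gi k) e ∧
            ¬ Derives {e' : MTerm C × MTerm C | Holds (gi k) e' ∧ e'.1.bound ≤ n ∧
              e'.2.bound ≤ n} e.1 e.2) := by
  have hN : S_NIL := Pool.Agent.Y974.MX.t_NIL Pool.Agent.Y401.MX.t_NRED Pool.Agent.Y465.MX.t_FIN
    Pool.Agent.Y921.MX.t_LNC
  have h4 : ∀ ℓ p : ℕ, ℓ.Prime → p.Prime → ℓ ≠ p → ∃ (Γ : Type) (_ : Group Γ), Finite Γ ∧
      (∀ r : ℕ, r.Prime → r ∣ Nat.card Γ → r = ℓ ∨ r = p) ∧
      ∀ (A : Type) [Group A], ¬ MixedFinitelyBased (A × Γ) ∧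
        ∀ (C : Type) (k : C → A × Γ), (∀ γ : Γ, ∃ c, k c = (1, γ)) →
          ∀ n : ℕ, ∃ e : MTerm C × MTerm C, Holds (gi k) e ∧
            ¬ Derives {e' : MTerm C × MTerm C | Holds (gi k) e' ∧ e'.1.bound ≤ n ∧
              e'.2.bound ≤ n} e.1 e.2 := by
    intro ℓ p hℓ hp hne
    obtain ⟨Γ, _, hfin, hcard, hno⟩ := exists_group ℓ p hℓ hp hne
    exact ⟨Γ, inferInstance, hfin, hcard, fun A _ => ⟨not_fb_prod (hno A), hno A⟩⟩
  refine ⟨?_, primes hN, hN, h4⟩
  obtain ⟨Γ, _, hfin, -, hno⟩ := h4 2 3 Nat.prime_two Nat.prime_three (by norm_num)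
  exact ⟨PUnit × Γ, inferInstance, inferInstance, (hno PUnit).1⟩

end Pool.Agent.Results.MP_fd3e90_al.PrimeSets
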